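import Mathlib
import Pool.Agent.V7H87.KD.Defs
import Pool.Agent.V7H87.LA.LA1

set_option autoImplicit false

/-! The bordered determinant as a coefficient of `φ_1 ∧ … ∧ φ_j ∧ ρ ∧ ρ' ∧ Θ^q` at a point. -/

namespace Pool.Agent.V7H87.LA

open ExteriorAlgebra Pool.Agent.V7H87.KD

variable {n : ℕ}

/-- the matrix with rows from a list -/
def rowsOf {A : Type*} [Zero A] (L : List (Fin (n + 1) → A)) :
    Matrix (Fin (n + 1)) (Fin (n + 1)) A := Matrix.of fun i => L.getD i 0

/-- `ℂ^{n+1} ⊕ ℂ^n` -/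
abbrev V' (n : ℕ) : Type := (Fin (n + 1) ⊕ Fin n) → ℂ

/-- inclusion of the first summand -/
def emb (n : ℕ) : (Fin (n + 1) → ℂ) →ₗ[ℂ] V' n where
  toFun r := Sum.elim r 0
  map_add' a b := by ext i; cases i <;> simp
  map_smul' c a := by ext i; cases i <;> simp

/-- basis vectors of the second summand -/
def eb (k : Fin n) : V' n := Pi.single (Sum.inr k) 1

/-- coordinate functionals of the second summand -/
def dd (m : Fin n) : Module.Dual ℂ (V' n) := LinearMap.proj (Sum.inr m)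

/-- inclusion of the space of covectors -/
def inc (n : ℕ) : Cov n →ₗ[ℂ] V' n where
  toFun v := Sum.elim (Fin.snoc (fun j => v (Sum.inl j)) 0) (fun j => v (Sum.inr j))
  map_add' a b := by
    ext i
    rcases i with i | i
    · refine Fin.lastCases ?_ (fun i => ?_) i <;> simp
    · simp
  map_smul' c a := by
    ext i
    rcases i with i | i
    · refine Fin.lastCases ?_ (fun i => ?_) i <;> simp
    · simp

/-- the alternating map: determinant of the coordinates of the first summand -/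
noncomputable def alt (n : ℕ) : (V' n) [⋀^Fin (n + 1)]→ₗ[ℂ] ℂ :=
  Matrix.detRowAlternating.compLinearMap (LinearMap.funLeft ℂ ℂ Sum.inl)

/-- the functional coefficient of the volume form of the first summand -/
noncomputable def Dfun (n : ℕ) : ExteriorAlgebra ℂ (V' n) →ₗ[ℂ] ℂ :=
  liftAlternating (R := ℂ) (M := V' n) (N := ℂ) (Function.update 0 (n + 1) (alt n))

theorem list_eq_ofFn {A : Type*} [Zero A] (L : List A) (N : ℕ) (h : L.length = N) :
    L = List.ofFn fun i : Fin N => L.getD i 0 := by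
  apply List.ext_getElem
  · simp [h]
  · intro i h1 h2
    simp [List.getElem?_eq_getElem h1]

theorem Dfun_prod (L : List (Fin (n + 1) → ℂ)) (h : L.length = n + 1) :
    Dfun n ((L.map fun r => ι ℂ (emb n r)).prod) = (rowsOf L).det := by
  have h1 := list_eq_ofFn L (n + 1) h
  have h2 : (L.map fun r => ι ℂ (emb n r)).prod =
      ιMulti ℂ (n + 1) fun i : Fin (n + 1) => emb n (L.getD i 0) := by
    rw [ιMulti_apply]
    conv_lhs => rw [h1]
    rw [List.map_ofFn]
    rfl
  rw [h2, Dfun, liftAlternating_apply_ιMulti, Function.update_self]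
  rfl

theorem inc_Z (φ : Fin n → ℂ) : inc n (∑ j, φ j • eZ j) = emb n (Fin.snoc φ 0) := by
  ext i
  rcases i with i | i
  · refine Fin.lastCases ?_ (fun i => ?_) i
    · simp [inc, emb, eZ]
    · simp [inc, emb, eZ, Finset.sum_apply, Pi.single_apply]
  · simp [inc, emb, eZ, Finset.sum_apply, Pi.single_apply]

theorem inc_Zb (φ : Fin n → ℂ) : inc n (∑ j, φ j • eZb j) = ∑ k, φ k • eb k := by
  ext i
  rcases i with i | i
  · refine Fin.lastCases ?_ (fun i => ?_) i
    · simp [inc, eb, eZb]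
    · simp [inc, eb, eZb, Finset.sum_apply, Pi.single_apply]
  · simp [inc, eb, eZb, Finset.sum_apply, Pi.single_apply]

theorem inc_Zb1 (k : Fin n) : inc n (eZb k) = eb k := by
  have := inc_Zb (Pi.single k 1)
  simpa [Pi.single_apply] using this

theorem map_Theta (θ : Fin n → Fin n → ℂ) :
    ExteriorAlgebra.map (inc n) (∑ j, ∑ k, θ j k • (ι ℂ (eZ j) * ι ℂ (eZb k))) =
      Om (fun k => emb n (Fin.snoc (fun j => θ j k) 0)) eb := by
  rw [map_sum]
  simp only [map_sum, map_smul, map_mul, map_apply_ι, Om]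
  rw [Finset.sum_comm]
  refine Finset.sum_congr rfl fun k _ => ?_
  rw [← inc_Z, map_sum, map_sum, Finset.sum_mul]
  refine Finset.sum_congr rfl fun j _ => ?_
  rw [map_smul, map_smul, smul_mul_assoc, inc_Zb1]

/-- the vector `t` -/
def tt (n : ℕ) : V' n := emb n (Fin.snoc 0 1)

theorem snoc_split (φ : Fin n → ℂ) (c : ℂ) :
    emb n (Fin.snoc φ c) = emb n (Fin.snoc φ 0) + c • tt n := by
  rw [tt, ← map_smul, ← map_add]
  congr 1
  ext i
  refine Fin.lastCases ?_ (fun i => ?_) i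
  · simp
  · simp

theorem Om_split (θ : Fin n → Fin n → ℂ) (ρ' : Fin n → ℂ) :
    Om (fun k => emb n (Fin.snoc (fun j => θ j k) (ρ' k))) eb =
      Om (fun k => emb n (Fin.snoc (fun j => θ j k) 0)) eb +
        ι ℂ (tt n) * ι ℂ (∑ k, ρ' k • eb k) := by
  simp only [Om]
  rw [map_sum, Finset.mul_sum, ← Finset.sum_add_distrib]
  refine Finset.sum_congr rfl fun k _ => ?_
  rw [snoc_split, map_add, map_smul, map_smul, add_mul, smul_mul_assoc, mul_smul_comm]

theorem dd_emb (m : Fin n) (r : Fin (n + 1) → ℂ) : dd m (emb n r) = 0 := rfl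

theorem dd_eb (m k : Fin n) : dd m (eb k) = if k = m then 1 else 0 := by
  simp [dd, eb, Pi.single_apply, eq_comm]

theorem t_prod (t : V' n) (L : List (V' n)) :
    ι ℂ t * (L.map (ι ℂ)).prod = (-1 : ℂ) ^ L.length • ((L.map (ι ℂ)).prod * ι ℂ t) := by
  induction L with
  | nil => simp
  | cons v L ih =>
    rw [List.map_cons, List.prod_cons, ← mul_assoc, anti t v, neg_mul, mul_assoc, ih,
      List.length_cons, pow_succ, mul_smul_comm]
    simp [mul_assoc]

/-- the functional -/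
noncomputable def lfun (ms : List (Fin n)) : ExteriorAlgebra ℂ (Cov n) →ₗ[ℂ] ℂ :=
  Dfun n ∘ₗ contrs dd ms ∘ₗ LinearMap.mulLeft ℂ (ι ℂ (tt n)) ∘ₗ
    (ExteriorAlgebra.map (inc n)).toLinearMap

theorem contrs_det (L : List (Fin (n + 1) → ℂ)) (R : Fin n → Fin (n + 1) → ℂ) (ms : List (Fin n))
    (h : L.length + ms.length = n + 1) :
    Dfun n (contrs dd ms (((L.map (emb n)).map (ι ℂ)).prod *
      Om (fun k => emb n (R k)) eb ^ ms.length)) =
      cst L.length ms.length * (rowsOf (L ++ ms.map R)).det := by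
  rw [contrs_main dd (fun k => emb n (R k)) eb (fun _ _ => rfl) dd_eb ms (L.map (emb n))
    (by
      intro v hv m
      rw [List.mem_map] at hv
      obtain ⟨r, -, rfl⟩ := hv
      rfl)]
  rw [map_smul, smul_eq_mul, List.length_map]
  congr 1
  rw [← Dfun_prod (L ++ ms.map R) (by simp [h])]
  congr 2
  simp [List.map_map, Function.comp_def]

theorem det_last_zero (L : List (Fin (n + 1) → ℂ)) (h : ∀ r ∈ L, r (Fin.last n) = 0) :
    (rowsOf L).det = 0 := by
  apply Matrix.det_eq_zero_of_column_eq_zero (Fin.last n)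
  intro i
  show (L.getD i 0) (Fin.last n) = 0
  by_cases hi : (i : ℕ) < L.length
  · rw [List.getD_eq_getElem _ _ hi]
    exact h _ (List.getElem_mem hi)
  · rw [List.getD_eq_default _ _ (not_lt.1 hi)]
    rfl

/-- the identity at a point -/
theorem point_identity (φs : List (Fin n → ℂ)) (ρ ρ' : Fin n → ℂ) (θ : Fin n → Fin n → ℂ)
    (ms : List (Fin n)) (q : ℕ) (hq : ms.length = q + 1) (h : φs.length + ms.length = n) :
    lfun ms ((φs.map fun φ => ι ℂ (∑ j, φ j • eZ j)).prod * ι ℂ (∑ j, ρ j • eZ j) *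
      ι ℂ (∑ j, ρ' j • eZb j) * (∑ j, ∑ k, θ j k • (ι ℂ (eZ j) * ι ℂ (eZb k))) ^ q) =
    ((-1) ^ (φs.length + 1) * ((q : ℂ) + 1)⁻¹ * cst (φs.length + 1) ms.length) *
      (rowsOf ((φs.map fun φ => Fin.snoc φ 0) ++ [Fin.snoc ρ 0] ++
        ms.map fun m => Fin.snoc (fun j => θ j m) (ρ' m))).det := by
  set L : List (Fin (n + 1) → ℂ) := (φs.map fun φ => (Fin.snoc φ 0 : Fin (n + 1) → ℂ)) ++
    [Fin.snoc ρ 0] with hL
  set P : ExteriorAlgebra ℂ (V' n) := ((L.map (emb n)).map (ι ℂ)).prod with hP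
  have hLlen : L.length = φs.length + 1 := by simp [hL]
  have hP1 : ExteriorAlgebra.map (inc n) ((φs.map fun φ => ι ℂ (∑ j, φ j • eZ j)).prod *
      ι ℂ (∑ j, ρ j • eZ j)) = P := by
    rw [map_mul, map_apply_ι, inc_Z, map_list_prod, List.map_map, hP, hL, List.map_append,
      List.map_append, List.prod_append, List.map_map, List.map_map]
    simp only [List.map_cons, List.map_nil, List.prod_cons, List.prod_nil, mul_one]
    congr 3
    funext φ
    show ExteriorAlgebra.map (inc n) (ι ℂ (∑ j, φ j • eZ j)) = ι ℂ (emb n (Fin.snoc φ 0))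
    rw [map_apply_ι, inc_Z]
  set Θ := Om (fun k => emb n (Fin.snoc (fun j => θ j k) 0)) eb with hΘ
  set Ω := Om (fun k => emb n (Fin.snoc (fun j => θ j k) (ρ' k))) eb with hΩ
  set T : ExteriorAlgebra ℂ (V' n) := ι ℂ (tt n) * ι ℂ (∑ k, ρ' k • eb k) with hT
  have hsplit : Ω = Θ + T := Om_split θ ρ'
  have hcomm : Commute Θ T := by
    have h1 : Commute (ι ℂ (tt n)) Θ := comm_Om _ _ _
    have h2 : Commute (ι ℂ (∑ k, ρ' k • eb k)) Θ := comm_Om _ _ _
    exact (h1.mul_left h2).symm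
  have hTT : T * T = 0 := by
    rw [hT, mul_assoc, ← mul_assoc (ι ℂ (∑ k, ρ' k • eb k)), anti (∑ k, ρ' k • eb k) (tt n), neg_mul,
      mul_neg, mul_assoc, ι_sq_zero]
    simp
  have hpow := pow_add_nil Θ T hcomm hTT q
  have hq0 : ((q : ℂ) + 1) ≠ 0 := by exact_mod_cast Nat.succ_ne_zero q
  have h3 : P * (T * Θ ^ q) = ((q : ℂ) + 1)⁻¹ • (P * Ω ^ (q + 1) - P * Θ ^ (q + 1)) := by
    rw [hsplit, hpow, mul_add, add_sub_cancel_left, eq_inv_smul_iff₀ hq0]
    have : ((q : ExteriorAlgebra ℂ (V' n)) + 1) = algebraMap ℂ _ ((q : ℂ) + 1) := by simp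
    rw [this, ← Algebra.smul_def, mul_smul_comm]
  have h4 : ExteriorAlgebra.map (inc n) ((φs.map fun φ => ι ℂ (∑ j, φ j • eZ j)).prod *
      ι ℂ (∑ j, ρ j • eZ j) *
      ι ℂ (∑ j, ρ' j • eZb j) * (∑ j, ∑ k, θ j k • (ι ℂ (eZ j) * ι ℂ (eZb k))) ^ q) =
      P * ι ℂ (∑ k, ρ' k • eb k) * Θ ^ q := by
    rw [map_mul, map_mul, hP1, map_apply_ι, inc_Zb, map_pow, map_Theta]
  have h5 : ι ℂ (tt n) * (P * ι ℂ (∑ k, ρ' k • eb k) * Θ ^ q) =
      (-1 : ℂ) ^ (φs.length + 1) • (P * (T * Θ ^ q)) := by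
    rw [← mul_assoc, ← mul_assoc, t_prod, List.length_map, hLlen, smul_mul_assoc, smul_mul_assoc,
      hT]
    congr 1
    simp only [mul_assoc]
    rfl
  have hz : (rowsOf (L ++ ms.map fun k => (Fin.snoc (fun j => θ j k) 0 : Fin (n + 1) → ℂ))).det =
      0 := by
    apply det_last_zero
    intro r hr
    simp only [hL, List.mem_append, List.mem_map, List.mem_singleton] at hr
    rcases hr with (⟨φ, -, rfl⟩ | rfl) | ⟨m, -, rfl⟩ <;> simp
  rw [lfun, LinearMap.comp_apply, LinearMap.comp_apply, LinearMap.comp_apply,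
    AlgHom.toLinearMap_apply, h4, LinearMap.mulLeft_apply, h5, h3, ← hq]
  simp only [map_smul, map_sub]
  rw [contrs_det L (fun k => Fin.snoc (fun j => θ j k) (ρ' k)) ms (by omega),
    contrs_det L (fun k => Fin.snoc (fun j => θ j k) 0) ms (by omega), hz, hLlen]
  simp only [smul_eq_mul, mul_zero, sub_zero]
  ring

end Pool.Agent.V7H87.LA
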