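import Mathlib
import Pool.Agent.V7H87.LA.LA2

set_option autoImplicit false

/-! Linear algebra over the fraction field. -/

namespace Pool.Agent.V7H87.LA

theorem rowsOf_map {A : Type*} {B : Type*} [Zero A] [Zero B] {n : ℕ} (f : A → B) (f0 : f 0 = 0)
    (L : List (Fin (n + 1) → A)) : (rowsOf L).map f = rowsOf (L.map fun r k => f (r k)) := by
  ext i j
  show f ((L.getD i 0) j) =
    ((L.map fun (r : Fin (n + 1) → A) (k : Fin (n + 1)) => f (r k)).getD i 0) j
  by_cases hi : (i : ℕ) < L.length
  · rw [List.getD_eq_getElem _ _ hi, List.getD_eq_getElem _ _ (by simpa using hi)]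
    simp
  · rw [List.getD_eq_default _ _ (not_lt.1 hi), List.getD_eq_default _ _ (by simpa using hi)]
    exact f0

theorem exists_null {K : Type*} [Field K] {n : ℕ} {I : Type*} (r : I → (Fin (n + 1) → K))
    (hr : ∀ i, r i (Fin.last n) = 0) (i0 : I) (hρ0 : r i0 ≠ 0) (τ : Fin n → (Fin (n + 1) → K))
    (h : ∀ (is : List I) (ms : List (Fin n)), is.length + ms.length = n → ms ≠ [] →
      (rowsOf (is.map r ++ [r i0] ++ ms.map τ)).det = 0) :
    ∃ a : Fin (n + 1) → K, a ≠ 0 ∧ (∀ i, ∑ j, a j * r i j = 0) ∧ ∀ m, ∑ j, a j * τ m j = 0 := by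
  classical
  by_cases hS : Submodule.span K (Set.range r ∪ Set.range τ) = ⊤
  · exfalso
    obtain ⟨b1, hb1t, hb1s, hb1span, hb1⟩ := exists_linearIndepOn_id_extension
      (K := K) (s := {r i0}) (t := Set.range r)
      (LinearIndepOn.singleton (v := id) hρ0) (by simp)
    obtain ⟨b2, hb2t, hb2s, hb2span, hb2⟩ := exists_linearIndepOn_id_extension
      (K := K) (s := b1) (t := Set.range r ∪ Set.range τ) hb1 (hb1t.trans Set.subset_union_left)
    have hspan2 : Submodule.span K b2 = ⊤ := by
      rw [eq_top_iff, ← hS]
      exact Submodule.span_le.2 hb2span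
    have hfin2 : b2.Finite := LinearIndependent.setFinite (R := K) hb2
    have hfin1 : b1.Finite := hfin2.subset hb2s
    have hcard : hfin2.toFinset.card = n + 1 := by
      have : Fintype b2 := hfin2.fintype
      have h1 := finrank_span_set_eq_card (R := K) (s := b2) hb2
      rw [hspan2, finrank_top, Module.finrank_fin_fun] at h1
      refine Eq.trans ?_ h1.symm
      congr 1
      ext x
      simp
    have hi0 : r i0 ∈ b1 := hb1s rfl
    -- the two lists
    set B1 := hfin1.toFinset with hB1
    set B2 := hfin2.toFinset with hB2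
    have hB12 : B1 ⊆ B2 := by
      intro x hx
      rw [hB1, Set.Finite.mem_toFinset] at hx
      rw [hB2, Set.Finite.mem_toFinset]
      exact hb2s hx
    have hrB1 : r i0 ∈ B1 := by rw [hB1, Set.Finite.mem_toFinset]; exact hi0
    set l1 := (B1.erase (r i0)).toList with hl1
    set l2 := (B2 \ B1).toList with hl2
    have hl1r : ∀ x ∈ l1, x ∈ Set.range r := by
      intro x hx
      rw [hl1, Finset.mem_toList] at hx
      have := Finset.mem_of_mem_erase hx
      rw [hB1, Set.Finite.mem_toFinset] at this
      exact hb1t this
    have hl2r : ∀ x ∈ l2, x ∈ Set.range τ := by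
      intro x hx
      rw [hl2, Finset.mem_toList, Finset.mem_sdiff, hB1, hB2, Set.Finite.mem_toFinset,
        Set.Finite.mem_toFinset] at hx
      rcases hb2t hx.1 with h1 | h1
      · exfalso
        have h2 := hb1span h1
        have h3 := LinearIndependent.notMem_span_image (R := K) hb2 (s := {y : b2 | y.1 ∈ b1})
          (x := ⟨x, hx.1⟩) (by simpa using hx.2)
        apply h3
        have h4 : (fun y : b2 => id y.1) '' {y : b2 | y.1 ∈ b1} = b1 := by
          ext z
          constructor
          · rintro ⟨y, hy, rfl⟩
            exact hy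
          · intro hz
            exact ⟨⟨z, hb2s hz⟩, hz, rfl⟩
        rw [h4]
        exact h2
      · exact h1
    obtain ⟨is, his⟩ : l1 ∈ Set.range (List.map r) := by
      rw [Set.range_list_map]
      exact hl1r
    obtain ⟨ms, hms⟩ : l2 ∈ Set.range (List.map τ) := by
      rw [Set.range_list_map]
      exact hl2r
    have hlen1 : l1.length = B1.card - 1 := by
      rw [hl1, Finset.length_toList, Finset.card_erase_of_mem hrB1]
    have hlen2 : l2.length = n + 1 - B1.card := by
      rw [hl2, Finset.length_toList, Finset.card_sdiff_of_subset hB12, hcard]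
    have hle : B1.card ≤ n + 1 := (Finset.card_le_card hB12).trans hcard.le
    have hpos : 0 < B1.card := Finset.card_pos.2 ⟨_, hrB1⟩
    have hlis : is.length = l1.length := by rw [← his, List.length_map]
    have hlms : ms.length = l2.length := by rw [← hms, List.length_map]
    have hne : ms ≠ [] := by
      rintro rfl
      rw [List.map_nil] at hms
      have h1 : B2 \ B1 = ∅ := by
        rw [← Finset.toList_eq_nil, ← hl2, hms]
      have h2 : b2 ⊆ b1 := by
        intro x hx
        have h3 : x ∈ B2 := by rw [hB2, Set.Finite.mem_toFinset]; exact hx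
        by_contra hx1
        have h4 : x ∈ B2 \ B1 := by
          rw [Finset.mem_sdiff]
          refine ⟨h3, ?_⟩
          rw [hB1, Set.Finite.mem_toFinset]
          exact hx1
        rw [h1] at h4
        exact absurd h4 (Finset.notMem_empty _)
      have h5 : Submodule.span K b2 ≤ LinearMap.ker (LinearMap.proj (R := K)
          (φ := fun _ : Fin (n + 1) => K) (Fin.last n)) := by
        rw [Submodule.span_le]
        intro x hx
        obtain ⟨i, rfl⟩ := hb1t (h2 hx)
        exact hr i
      rw [hspan2] at h5
      have h6 : (Pi.single (Fin.last n) 1 : Fin (n + 1) → K) ∈ LinearMap.ker (LinearMap.proj (R := K)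
          (φ := fun _ : Fin (n + 1) => K) (Fin.last n)) := h5 trivial
      simp at h6
    have hdet := h is ms (by omega) hne
    set L := l1 ++ [r i0] ++ l2 with hL
    rw [his, hms, ← hL] at hdet
    have hLlen : L.length = n + 1 := by
      rw [hL, List.length_append, List.length_append, List.length_singleton]
      omega
    have hLmem : ∀ x ∈ L, x ∈ b2 := by
      intro x hx
      rw [hL, List.mem_append, List.mem_append, List.mem_singleton, hl1, hl2, Finset.mem_toList,
        Finset.mem_toList, Finset.mem_erase, Finset.mem_sdiff, hB1, hB2, Set.Finite.mem_toFinset,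
        Set.Finite.mem_toFinset] at hx
      rcases hx with (hx | rfl) | hx
      · exact hb2s hx.2
      · exact hb2s hi0
      · exact hx.1
    have hLnd : L.Nodup := by
      rw [hL, List.nodup_append, List.nodup_append]
      refine ⟨⟨Finset.nodup_toList _, List.nodup_singleton _, ?_⟩, Finset.nodup_toList _, ?_⟩
      · intro x hx y hy hxy
        rw [List.mem_singleton] at hy
        rw [hl1, Finset.mem_toList, Finset.mem_erase] at hx
        exact hx.1 (hxy.trans hy)
      · intro x hx y hy hxy
        rw [hl2, Finset.mem_toList, Finset.mem_sdiff] at hy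
        rw [List.mem_append, List.mem_singleton, hl1, Finset.mem_toList, Finset.mem_erase] at hx
        subst hxy
        rcases hx with hx | hx
        · exact hy.2 hx.2
        · rw [hx] at hy
          exact hy.2 hrB1
    have hLget : ∀ i : Fin (n + 1), L.getD i 0 ∈ b2 := by
      intro i
      rw [List.getD_eq_getElem _ _ (by rw [hLlen]; exact i.2)]
      exact hLmem _ (List.getElem_mem _)
    have hinj : Function.Injective fun i : Fin (n + 1) => (⟨L.getD i 0, hLget i⟩ : b2) := by
      intro i j hij
      have h1 : L.getD i 0 = L.getD j 0 := congrArg Subtype.val hij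
      rw [List.getD_eq_getElem _ _ (by rw [hLlen]; exact i.2),
        List.getD_eq_getElem _ _ (by rw [hLlen]; exact j.2)] at h1
      have h2 := (List.Nodup.getElem_inj_iff hLnd).1 h1
      exact Fin.ext h2
    have hli : LinearIndependent K (rowsOf L).row := by
      have h1 := LinearIndependent.comp (R := K) (v := fun y : b2 => id y.1) hb2 _ hinj
      exact h1
    have hu := (Matrix.isUnit_iff_isUnit_det _).1 (Matrix.linearIndependent_rows_iff_isUnit.1 hli)
    rw [hdet] at hu
    exact not_isUnit_zero hu
  · obtain ⟨f, hf0, hf⟩ := Submodule.exists_le_ker_of_lt_top _ (lt_top_iff_ne_top.2 hS)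
    have hfa : ∀ x : Fin (n + 1) → K, f x = ∑ j, f (fun k => if j = k then 1 else 0) * x j := by
      intro x
      rw [LinearMap.pi_apply_eq_sum_univ f x]
      exact Finset.sum_congr rfl fun j _ => by rw [smul_eq_mul, mul_comm]
    refine ⟨fun j => f (fun k => if j = k then 1 else 0), ?_, ?_, ?_⟩
    · intro h0
      apply hf0
      ext1 x
      ext
      rw [LinearMap.comp_apply, hfa]
      simp [congrFun h0]
    · intro i
      rw [← hfa]
      exact hf (Submodule.subset_span (Or.inl ⟨i, rfl⟩))
    · intro m
      rw [← hfa]
      exact hf (Submodule.subset_span (Or.inr ⟨m, rfl⟩))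

end Pool.Agent.V7H87.LA
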